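import Mathlib

set_option autoImplicit false
open Set Metric Real

namespace Pool.Agent.Results.MP_124474_gt.Quarter

/-- The circle of length `2π` with its arc-length metric. -/
abbrev C : Type := AddCircle (2 * π)
/-- `R` is a correspondence between `X` and the circle. -/
def Corr (X : Set C) (R : Set (C × C)) : Prop := (∀ a ∈ R, a.1 ∈ X) ∧ (∀ x ∈ X, ∃ p, (x, p) ∈ R) ∧ ∀ p, ∃ x, (x, p) ∈ R
/-- Distortion of a relation. -/
noncomputable def dis (R : Set (C × C)) : ℝ := sSup {t | ∃ a ∈ R, ∃ b ∈ R, t = |dist a.1 b.1 - dist a.2 b.2|}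
/-- Gromov–Hausdorff distance from `X` to the circle: half the infimum of distortions. -/
noncomputable def dGH (X : Set C) : ℝ := sInf {t | ∃ R, Corr X R ∧ t = dis R} / 2
/-- Hausdorff distance from `X` to the circle. -/
noncomputable def dH (X : Set C) : ℝ := ⨆ p, infDist p X

lemma dle (a b : C) : dist a b ≤ π := by
  have := AddCircle.norm_le_half_period (2 * π) (x := a - b) (by positivity)
  rw [abs_of_pos (by positivity)] at this
  rw [dist_eq_norm]; linarith
lemma nabs {u : ℝ} (h : |u| ≤ π) : ‖(u : C)‖ = |u| :=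
  (AddCircle.norm_coe_eq_abs_iff _ (by positivity)).2 (by rw [abs_of_pos (by positivity : 0 < 2 * π)]; linarith)
lemma ledis {R : Set (C × C)} {a b : C × C} (ha : a ∈ R) (hb : b ∈ R) : |dist a.1 b.1 - dist a.2 b.2| ≤ dis R :=
  le_csSup ⟨π, by
    rintro _ ⟨a, -, b, -, rfl⟩
    exact abs_le.2 ⟨by linarith [dle a.2 b.2, dist_nonneg (x := a.1) (y := b.1)],
      by linarith [dle a.1 b.1, dist_nonneg (x := a.2) (y := b.2)]⟩⟩ ⟨a, ha, b, hb, rfl⟩

lemma low {X : Set C} {R : Set (C × C)} (hR : Corr X R) (c : C) (hc : infDist c X < π / 4) : 2 * infDist c X ≤ dis R := by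
  by_contra! k
  have : Fact (0 < 2 * π) := ⟨by positivity⟩
  obtain ⟨c, rfl⟩ := QuotientAddGroup.mk_surjective c
  have : ∀ x : C, ∃ l : ℝ, (l : C) = x ∧ c ≤ l ∧ l < c + 2 * π := fun x =>
    ⟨_, (AddCircle.equivIco (2 * π) c).symm_apply_apply x, (AddCircle.equivIco (2 * π) c x).2⟩
  choose l l1 l2 l3 using this
  set g := infDist (c : C) X
  have hl : ∀ x ∈ X, c + g ≤ l x ∧ l x ≤ c + 2 * π - g := fun x hx => by
    have h1 : g ≤ ‖((c - l x : ℝ) : C)‖ := by simpa [l1, dist_eq_norm] using infDist_le_dist_of_mem (x := (c : C)) hx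
    have h2 : g ≤ ‖((c + 2 * π - l x : ℝ) : C)‖ := by
      rwa [add_sub_right_comm, QuotientAddGroup.mk_add, AddCircle.coe_period, add_zero]
    have h3 := h1.trans QuotientAddGroup.norm_mk_le_norm
    have h4 := h2.trans QuotientAddGroup.norm_mk_le_norm
    rw [norm_eq_abs, abs_of_nonpos (by linarith [l2 x])] at h3
    rw [norm_eq_abs, abs_of_nonneg (by linarith [l3 x])] at h4
    constructor <;> linarith
  have h1 : ∀ x ∈ X, ∀ y ∈ X, dist x y < 2 * g → l x - l y ≤ dist x y := fun x hx y hy h => by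
    have e : dist x y = ‖((l x - l y : ℝ) : C)‖ := by simp [l1, dist_eq_norm]
    by_contra! q
    have := dist_nonneg (x := x) (y := y)
    by_cases w : l x - l y ≤ π
    · rw [nabs (abs_le.2 ⟨by linarith [pi_pos], w⟩), abs_of_nonneg (by linarith)] at e
      linarith
    · have e2 : dist x y = ‖((l x - l y - 2 * π : ℝ) : C)‖ := by
        rw [e, QuotientAddGroup.mk_sub _ (l x - l y), AddCircle.coe_period, sub_zero]
      rw [nabs (abs_le.2 ⟨by linarith, by linarith [hl x hx, hl y hy, pi_pos]⟩), abs_of_nonpos (by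
        linarith [hl x hx, hl y hy])] at e2
      linarith [hl x hx, hl y hy]
  choose f hf using hR.2.2
  have fX := fun p => hR.1 _ (hf p)
  obtain ⟨N, hN⟩ := exists_nat_one_div_lt (K := ℝ) (ε := (2 * g - dis R) / π) (by have := pi_pos; positivity)
  rw [lt_div_iff₀ pi_pos] at hN
  set η := 1 / ((N : ℝ) + 1) * π with hη
  have η0 : 0 ≤ η := by positivity
  have η1 : η ≤ π := mul_le_of_le_one_left pi_pos.le (by rw [div_le_one (by positivity)]; linarith [N.cast_nonneg (α := ℝ)])
  have st : ∀ t : ℝ, |l (f (t + η : ℝ)) - l (f t)| ≤ dis R + η := fun t => by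
    have := abs_le.1 (ledis (hf (t + η : ℝ)) (hf t))
    have e : dist ((t + η : ℝ) : C) t = η := by
      rw [dist_eq_norm, ← QuotientAddGroup.mk_sub, add_sub_cancel_left, nabs (by rwa [abs_of_nonneg η0]), abs_of_nonneg η0]
    simp only [e] at this
    have a := h1 _ (fX (t + η : ℝ)) _ (fX t) (by linarith)
    have b := h1 _ (fX t) _ (fX (t + η : ℝ)) (by rw [dist_comm]; linarith)
    rw [dist_comm] at b
    exact abs_le.2 ⟨by linarith, by linarith⟩
  have an : ∀ t : ℝ, π - dis R ≤ |l (f t) - l (f (t + π : ℝ))| := fun t => by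
    have := abs_le.1 (ledis (hf (t + π : ℝ)) (hf t))
    have e : dist ((t + π : ℝ) : C) t = π := by
      rw [dist_eq_norm, ← QuotientAddGroup.mk_sub, add_sub_cancel_left, nabs (abs_of_pos pi_pos).le, abs_of_pos pi_pos]
    have e2 : dist (f (t + π : ℝ)) (f t) = ‖((l (f t) - l (f (t + π : ℝ)) : ℝ) : C)‖ := by simp [l1, dist_eq_norm, norm_sub_rev]
    have := QuotientAddGroup.norm_mk_le_norm.trans_eq' e2.symm
    simp only [e, norm_eq_abs] at *
    linarith
  let φ : ℝ → ℝ := fun t => l (f t) - l (f (t + π : ℝ))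
  have ind : ∀ n : ℕ, 0 < φ 0 * φ (n * η) := fun n => by
    induction n with
    | zero =>
      rw [Nat.cast_zero, zero_mul]
      exact mul_self_pos.2 (abs_pos.1 (lt_of_lt_of_le (by linarith [pi_pos]) (an 0)))
    | succ n ih =>
      have a := abs_le.1 (st (n * η))
      have b := abs_le.1 (st (n * η + π))
      have c := le_abs.1 (an (n * η))
      have d := le_abs.1 (an (n * η + η))
      rw [add_right_comm] at b
      push_cast
      rw [add_mul, one_mul]
      simp only [φ] at ih ⊢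
      rcases mul_pos_iff.1 ih with h | h <;> rcases c with c | c <;> rcases d with d | d <;>
        first | exact mul_pos h.1 (by linarith) | exact mul_pos_of_neg_of_neg h.1 (by linarith) | linarith
  have := ind (N + 1)
  rw [show ((N + 1 : ℕ) : ℝ) * η = π by rw [hη]; push_cast; field_simp] at this
  simp only [φ, zero_add, ← two_mul, AddCircle.coe_period, QuotientAddGroup.mk_zero] at this
  nlinarith [sq_nonneg (l (f 0) - l (f π))]

theorem result : (∀ X : Set C, X.Nonempty → dH X < π / 4 → dGH X = dH X) ∧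
    ¬ ∀ ε > 0, ∃ X : Set C, X.Nonempty ∧ dH X < π / 6 + ε ∧ dGH X < dH X := by
  have key : ∀ X : Set C, X.Nonempty → dH X < π / 4 → dGH X = dH X := fun X ⟨x, hx⟩ h => by
    have bd : ∀ p, infDist p X ≤ dH X := le_ciSup ⟨π, by rintro _ ⟨p, rfl⟩; exact (infDist_le_dist_of_mem hx).trans (dle _ _)⟩
    have lb : ∀ t ∈ {t | ∃ R, Corr X R ∧ t = dis R}, 2 * dH X ≤ t := by
      rintro _ ⟨R, hR, rfl⟩
      have : dH X ≤ dis R / 2 := ciSup_le fun p => by linarith [low hR p ((bd p).trans_lt h)]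
      linarith
    have up : ∀ ε > 0, ∃ R, Corr X R ∧ dis R ≤ 2 * dH X + ε := fun ε hε => by
      have h0 := infDist_nonneg.trans (bd 0)
      refine ⟨{a | a.1 ∈ X ∧ dist a.2 a.1 < dH X + ε / 2}, ⟨fun _ h => h.1, fun y hy => ⟨y, hy, by simp; linarith⟩,
        fun p => (infDist_lt_iff ⟨x, hx⟩).1 (by linarith [bd p])⟩, Real.sSup_le ?_ (by linarith)⟩
      rintro _ ⟨a, ha, b, hb, rfl⟩
      have := dist_dist_dist_le a.1 b.1 a.2 b.2
      rw [Real.dist_eq, dist_comm a.1 a.2, dist_comm b.1 b.2] at this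
      linarith [ha.2, hb.2]
    obtain ⟨R, hR, -⟩ := up 1 one_pos
    have : sInf {t | ∃ R, Corr X R ∧ t = dis R} = 2 * dH X := le_antisymm (le_of_forall_pos_le_add fun ε hε => by
      obtain ⟨R, h1, h2⟩ := up ε hε
      exact (csInf_le ⟨_, lb⟩ ⟨R, h1, rfl⟩).trans h2) (le_csInf ⟨_, R, hR, rfl⟩ lb)
    rw [dGH, this]; ring
  refine ⟨key, fun h => ?_⟩
  obtain ⟨X, h1, h2, h3⟩ := h (π / 12) (by positivity)
  exact h3.ne (key X h1 (by linarith))

end Pool.Agent.Results.MP_124474_gt.Quarter
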